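import Pool.Agent.RootConj.Final
import Pool.Agent.RootConj.KM3
import Pool.Agent.RootConj.KMExist
import Pool.Agent.RootConj.Symm

set_option autoImplicit false

/-!
# The root conjecture for c-vectors (MP_d86e12_al)

For every skew-symmetrizable integer matrix `B`, every c-vector of `B` is a root of the Kac-Moody
root system of the Cartan counterpart of `B`.
-/

namespace Pool.Agent.Results.MP_d86e12_al.RootConjecture

open Pool.Agent.RootConj

universe u v

/-- `B` is skew-symmetrizable: `D B` is skew-symmetric for some diagonal matrix `D` with positive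
(real) diagonal entries. -/
def SkewSymmetrizable {n : ℕ} (B : Matrix (Fin n) (Fin n) ℤ) : Prop :=
  ∃ D : Fin n → ℝ, (∀ i, 0 < D i) ∧
    (Matrix.diagonal D * B.map (Int.cast : ℤ → ℝ)).transpose =
      -(Matrix.diagonal D * B.map (Int.cast : ℤ → ℝ))

/-- The mutation at `k` of an integer matrix with `2n` rows (indexed by `Fin n ⊕ Fin n`: first the
top block, then the bottom block) and `n` columns. -/
def mutation {n : ℕ} (k : Fin n) (M : Matrix (Fin n ⊕ Fin n) (Fin n) ℤ) :
    Matrix (Fin n ⊕ Fin n) (Fin n) ℤ :=
  fun i j => if i = Sum.inl k ∨ j = k then -M i j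
    else M i j + (M i k).sign * max (M i k * M (Sum.inl k) j) 0

/-- The extended matrix obtained from `B` (top block) and the identity matrix (bottom block) by the
mutations at the elements of the list `l`, one after the other. -/
def extended {n : ℕ} (B : Matrix (Fin n) (Fin n) ℤ) (l : List (Fin n)) :
    Matrix (Fin n ⊕ Fin n) (Fin n) ℤ :=
  l.foldl (fun M k => mutation k M) (Matrix.fromRows B 1)

/-- `c` is a c-vector of `B`: a column of the bottom block of a matrix obtained by mutations. -/
def IsCVector {n : ℕ} (B : Matrix (Fin n) (Fin n) ℤ) (c : Fin n → ℤ) : Prop :=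
  ∃ (l : List (Fin n)) (j : Fin n), ∀ i, c i = extended B l (Sum.inr i) j

/-- The Cartan counterpart of `B`. -/
def cartanCounterpart {n : ℕ} (B : Matrix (Fin n) (Fin n) ℤ) : Fin n → Fin n → ℤ :=
  fun i j => if i = j then 2 else -|B i j|

/-- A pair of square matrices as one matrix. -/
def block {n : ℕ} (P : (Fin n → Fin n → ℤ) × (Fin n → Fin n → ℤ)) :
    Matrix (Fin n ⊕ Fin n) (Fin n) ℤ := Matrix.fromRows P.1 P.2

theorem mutation_block {n : ℕ} (k : Fin n) (P : (Fin n → Fin n → ℤ) × (Fin n → Fin n → ℤ)) :
    mutation k (block P) = block (step P k) := by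
  funext i j
  rcases i with i | i
  · show (if Sum.inl i = Sum.inl k ∨ j = k then -P.1 i j
      else P.1 i j + (P.1 i k).sign * max (P.1 i k * P.1 k j) 0) = mutB P.1 k i j
    simp only [mutB, Sum.inl.injEq]
  · show (if (Sum.inr i : Fin n ⊕ Fin n) = Sum.inl k ∨ j = k then -P.2 i j
      else P.2 i j + (P.2 i k).sign * max (P.2 i k * P.1 k j) 0) = mutC P.1 P.2 k i j
    simp only [mutC, reduceCtorEq, false_or]

theorem foldl_block {n : ℕ} (l : List (Fin n)) (P : (Fin n → Fin n → ℤ) × (Fin n → Fin n → ℤ)) :
    l.foldl (fun M k => mutation k M) (block P) = block (l.foldl step P) := by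
  induction l generalizing P with
  | nil => rfl
  | cons k l ih =>
    rw [List.foldl_cons, List.foldl_cons, mutation_block, ih]

theorem extended_eq {n : ℕ} (B : Matrix (Fin n) (Fin n) ℤ) (l : List (Fin n)) (i j : Fin n) :
    extended B l (Sum.inr i) j = cv B l j i := by
  have h1 : (Matrix.fromRows B 1 : Matrix (Fin n ⊕ Fin n) (Fin n) ℤ) = block (B, idM) := by
    have h2 : (1 : Matrix (Fin n) (Fin n) ℤ) = idM := by
      funext i j
      simp [idM, Matrix.one_apply]
    show Matrix.fromRows B 1 = Matrix.fromRows B idM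
    rw [h2]
  unfold extended
  rw [h1, foldl_block]
  rfl

/-- The root conjecture for c-vectors: for every skew-symmetrizable integer matrix `B`, every
c-vector of `B` is a root of every Kac-Moody algebra with Cartan matrix `A(B)`. -/
theorem result {n : ℕ} (B : Matrix (Fin n) (Fin n) ℤ) (hB : SkewSymmetrizable B)
    (c : Fin n → ℤ) (hc : IsCVector B c)
    {K : Type u} [Field K] [CharZero K] {𝔤 : Type v} [LieRing 𝔤] [LieAlgebra K 𝔤]
    (M : KacMoody K (cartanCounterpart B) 𝔤) : M.IsRoot c := by
  obtain ⟨D, hD, hs⟩ := hB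
  obtain ⟨d, hd⟩ := exists_symmetrizer B D hD (by
    intro i j
    have h1 := congrFun (congrFun hs j) i
    simp only [Matrix.transpose_apply, Matrix.neg_apply, Matrix.diagonal_mul,
      Matrix.map_apply] at h1
    exact h1)
  obtain ⟨l, j, hlj⟩ := hc
  have hc' : c = cv B l j := by
    funext i
    rw [hlj, extended_eq]
  rw [hc']
  exact M.isRoot_of_isRoot (symGCM_cartan hd) (cv_isRoot B d hd l j)

end Pool.Agent.Results.MP_d86e12_al.RootConjecture
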